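import Pool.Agent.Q161.ESN.Stm3
import Pool.Agent.Q239.EL.UN

/-!
# Project ESN, job GEN: generators of products of arbitrary primes (helper79)

Adapted from `Pool/Agent/Q14/ESM/GEN.lean` (helper14).
-/

set_option autoImplicit false

namespace Pool.Agent.Q79.ESN

open Polynomial NumberField IsDedekindDomain Finset
open Pool.Agent.Q51.EL Pool.Agent.Q239.EL
open Pool.Agent.Q161.EA (Un Om)
open Pool.Agent.Q161.ESN

section

variable {L : Type} [Field L] [NumberField L]

theorem card_nf_prod (S : Finset (HeightOneSpectrum (𝓞 L))) :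
    (UniqueFactorizationMonoid.normalizedFactors (∏ v ∈ S, v.asIdeal)).card = S.card := by
  classical
  induction S using Finset.induction_on with
  | empty => rw [Finset.prod_empty, UniqueFactorizationMonoid.normalizedFactors_one]; rfl
  | insert a s ha ih =>
    have h0 : ∏ w ∈ s, w.asIdeal ≠ 0 := Finset.prod_ne_zero_iff.mpr fun w _ => w.ne_bot
    rw [Finset.prod_insert ha, UniqueFactorizationMonoid.normalizedFactors_mul a.ne_bot h0,
      Multiset.card_add, ih, UniqueFactorizationMonoid.normalizedFactors_irreducible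
      a.prime.irreducible, Multiset.card_singleton, Finset.card_insert_of_notMem ha]
    ring

theorem exists_natPrime_mem (v : HeightOneSpectrum (𝓞 L)) :
    ∃ p : ℕ, p.Prime ∧ (p : 𝓞 L) ∈ v.asIdeal := by
  have h0 : Ideal.absNorm v.asIdeal ≠ 0 := by
    rw [Ne, Ideal.absNorm_eq_zero_iff]
    exact v.ne_bot
  have key : ∀ n : ℕ, n ≠ 0 → (n : 𝓞 L) ∈ v.asIdeal → ∃ p : ℕ, p.Prime ∧ (p : 𝓞 L) ∈ v.asIdeal := by
    intro n
    induction n using Nat.strong_induction_on with
    | _ n ih =>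
      intro hn hm
      by_cases h1 : n = 1
      · subst h1
        rw [Nat.cast_one] at hm
        exact absurd ((Ideal.eq_top_iff_one _).mpr hm) v.isPrime.ne_top
      · obtain ⟨p, hp, m, rfl⟩ := Nat.exists_prime_and_dvd h1
        rw [Nat.cast_mul] at hm
        rcases v.isPrime.mem_or_mem hm with h | h
        · exact ⟨p, hp, h⟩
        · have hm0 : m ≠ 0 := by
            rintro rfl
            exact hn (mul_zero _)
          refine ih m ?_ hm0 h
          have := hp.one_lt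
          nlinarith [Nat.pos_of_ne_zero hm0]
  exact key _ h0 (Ideal.absNorm_mem _)

theorem absNorm_natSpan (p : ℕ) :
    Ideal.absNorm (Ideal.span {(p : 𝓞 L)}) = p ^ Module.finrank ℚ L := by
  rw [Ideal.absNorm_span_natCast, RingOfIntegers.rank]

theorem dvd_absNorm_of_mem (v : HeightOneSpectrum (𝓞 L)) {p : ℕ} (hp : p.Prime)
    (h : (p : 𝓞 L) ∈ v.asIdeal) : p ∣ Ideal.absNorm v.asIdeal := by
  have h1 : v.asIdeal ∣ Ideal.span {(p : 𝓞 L)} := by
    rw [Ideal.dvd_span_singleton]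
    exact h
  have h2 : Ideal.absNorm v.asIdeal ∣ p ^ Module.finrank ℚ L := by
    rw [← absNorm_natSpan (L := L) p]
    exact map_dvd Ideal.absNorm h1
  obtain ⟨k, _, hk⟩ := (Nat.dvd_prime_pow hp).mp h2
  have hk0 : k ≠ 0 := by
    rintro rfl
    rw [pow_zero] at hk
    exact v.isPrime.ne_top (Ideal.absNorm_eq_one_iff.mp hk)
  rw [hk]
  exact dvd_pow_self p hk0

/-- at most `[L : ℚ]` primes lie above `p` -/
theorem card_above_le {p : ℕ} (hp : p.Prime) (T : Finset (HeightOneSpectrum (𝓞 L)))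
    (hT : ∀ v ∈ T, (p : 𝓞 L) ∈ v.asIdeal) : T.card ≤ Module.finrank ℚ L := by
  have h1 : ∏ v ∈ T, v.asIdeal ∣ Ideal.span {(p : 𝓞 L)} := by
    refine Finset.prod_dvd_of_coprime ?_ ?_
    · intro v _ v' _ hne
      rw [Function.onFun, Ideal.isCoprime_iff_sup_eq]
      have hv := v.isMaximal
      have hv' := v'.isMaximal
      exact Ideal.IsMaximal.coprime_of_ne hv hv' fun h => hne (HeightOneSpectrum.ext h)
    · intro v hv
      rw [Ideal.dvd_span_singleton]
      exact hT v hv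
  have h2 : ∏ v ∈ T, Ideal.absNorm v.asIdeal ∣ p ^ Module.finrank ℚ L := by
    rw [← absNorm_natSpan (L := L) p, ← map_prod]
    exact map_dvd Ideal.absNorm h1
  have h3 : p ^ T.card ≤ ∏ v ∈ T, Ideal.absNorm v.asIdeal := by
    refine Finset.pow_card_le_prod _ _ _ fun v hv => ?_
    refine Nat.le_of_dvd ?_ (dvd_absNorm_of_mem v hp (hT v hv))
    refine Nat.pos_of_ne_zero ?_
    rw [Ne, Ideal.absNorm_eq_zero_iff]
    exact v.ne_bot
  have h4 : p ^ T.card ≤ p ^ Module.finrank ℚ L :=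
    h3.trans (Nat.le_of_dvd (pow_pos hp.pos _) h2)
  exact (Nat.pow_le_pow_iff_right hp.one_lt).mp h4

/-- the number of the primes of a finite set is at most `[L : ℚ]` times the number of the prime factors of any
nonzero multiple of the norms -/
theorem card_le_primeFactors (S : Finset (HeightOneSpectrum (𝓞 L))) {N : ℕ} (hN : N ≠ 0)
    (hS : ∀ v ∈ S, Ideal.absNorm v.asIdeal ∣ N) :
    S.card ≤ Module.finrank ℚ L * N.primeFactors.card := by
  classical
  choose f hf hfm using fun v : HeightOneSpectrum (𝓞 L) => exists_natPrime_mem v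
  have h1 : S.card ≤ Module.finrank ℚ L * (S.image f).card := by
    refine Finset.card_le_mul_card_image S _ ?_
    intro p hp
    obtain ⟨v0, hv0, rfl⟩ := Finset.mem_image.mp hp
    refine card_above_le (hf v0) _ ?_
    intro v hv
    obtain ⟨_, h⟩ := Finset.mem_filter.mp hv
    rw [← h]
    exact hfm v
  refine h1.trans (Nat.mul_le_mul_left _ (Finset.card_le_card ?_))
  intro p hp
  obtain ⟨v, hv, rfl⟩ := Finset.mem_image.mp hp
  rw [Nat.mem_primeFactors]
  exact ⟨hf v, (dvd_absNorm_of_mem v (hf v) (hfm v)).trans (hS v hv), hN⟩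

end

theorem gen : S_GEN := by
  classical
  intro L _ _
  obtain ⟨C1, hC1, hun⟩ := un L
  have hsur : ∀ g : ClassGroup (𝓞 L), ∃ I : nonZeroDivisors (Ideal (𝓞 L)), ClassGroup.mk0 I = g :=
    ClassGroup.mk0_surjective
  choose c hc using hsur
  have hc0 : ∀ g, (c g : Ideal (𝓞 L)) ≠ 0 := fun g => nonZeroDivisors.ne_zero (c g).2
  have hcn : ∀ g, Ideal.absNorm (c g : Ideal (𝓞 L)) ≠ 0 := fun g => by
    rw [Ne, Ideal.absNorm_eq_zero_iff]
    exact hc0 g
  set B : ℕ := ∏ g : ClassGroup (𝓞 L), Ideal.absNorm (c g : Ideal (𝓞 L)) with hB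
  have hB0 : B ≠ 0 := Finset.prod_ne_zero_iff.mpr fun g _ => hcn g
  have hcv : ∀ v : HeightOneSpectrum (𝓞 L), (B : 𝓞 L) ∉ v.asIdeal → ∀ g, mu v (c g) = 0 := by
    intro v hv g
    apply mu_eq_zero
    intro hd
    apply hv
    have h1 : (c g : Ideal (𝓞 L)) ≤ v.asIdeal := Ideal.dvd_iff_le.mp hd
    have h2 := h1 (Ideal.absNorm_mem (c g : Ideal (𝓞 L)))
    obtain ⟨m, hm⟩ : Ideal.absNorm (c g : Ideal (𝓞 L)) ∣ B := Finset.dvd_prod_of_mem _ (Finset.mem_univ g)
    rw [hm, Nat.cast_mul]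
    exact Ideal.mul_mem_right _ _ h2
  set K2 : ℕ := ∑ g : ClassGroup (𝓞 L),
    (UniqueFactorizationMonoid.normalizedFactors (c g : Ideal (𝓞 L))).card with hK2
  have hn0 : Module.finrank ℚ L ≠ 0 := Module.finrank_pos.ne'
  refine ⟨B, (B : ℝ), C1 ^ Module.finrank ℚ L + (K2 : ℝ) + (Module.finrank ℚ L : ℝ), hB0, ?_, ?_⟩
  · exact_mod_cast Nat.pos_of_ne_zero hB0
  intro S hS
  have hI0 : ∏ v ∈ S, v.asIdeal ≠ 0 := Finset.prod_ne_zero_iff.mpr fun w _ => w.ne_bot
  obtain ⟨I, hI⟩ : ∃ I : Ideal (𝓞 L), I = ∏ v ∈ S, v.asIdeal := ⟨_, rfl⟩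
  rw [← hI] at hI0
  obtain ⟨I', hI'⟩ : ∃ I' : nonZeroDivisors (Ideal (𝓞 L)), (I' : Ideal (𝓞 L)) = I :=
    ⟨⟨I, mem_nonZeroDivisors_of_ne_zero hI0⟩, rfl⟩
  obtain ⟨g, hg⟩ : ∃ g : ClassGroup (𝓞 L), g = (ClassGroup.mk0 I')⁻¹ := ⟨_, rfl⟩
  have hpr : ClassGroup.mk0 (I' * c g) = 1 := by
    rw [map_mul, hc, hg, mul_inv_cancel]
  rw [ClassGroup.mk0_eq_one_iff] at hpr
  obtain ⟨β0, hβ0⟩ := hpr.principal
  have hspan0 : Ideal.span {β0} = I * (c g : Ideal (𝓞 L)) := by
    have h1 : ((I' * c g : nonZeroDivisors (Ideal (𝓞 L))) : Ideal (𝓞 L)) = I * c g := by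
      rw [Submonoid.coe_mul, hI']
    rw [← h1]
    exact hβ0.symm
  have hβ00 : β0 ≠ 0 := by
    rintro rfl
    have h1 : I * (c g : Ideal (𝓞 L)) = 0 := by
      rw [← hspan0, Ideal.zero_eq_bot, Ideal.span_singleton_eq_bot]
    exact mul_ne_zero hI0 (hc0 g) h1
  obtain ⟨u, hu⟩ := hun β0 hβ00
  obtain ⟨β, hβ⟩ : ∃ β : 𝓞 L, β = β0 * (u : 𝓞 L) ^ 2 := ⟨_, rfl⟩
  rw [← hβ] at hu
  have hunit : IsUnit ((u : 𝓞 L) ^ 2) := u.isUnit.pow 2
  have hspan : Ideal.span {β} = I * (c g : Ideal (𝓞 L)) := by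
    rw [hβ, Ideal.span_singleton_mul_right_unit hunit, hspan0]
  have hspan' : Ideal.span {β} = Ideal.span {β0} := by rw [hspan, hspan0]
  have hβne : β ≠ 0 := by
    rw [hβ]
    exact mul_ne_zero hβ00 hunit.ne_zero
  have hnI : Ideal.absNorm I = ∏ v ∈ S, Ideal.absNorm v.asIdeal := by rw [hI, map_prod]
  have hnorm : Ideal.absNorm (Ideal.span {β}) =
      (∏ v ∈ S, Ideal.absNorm v.asIdeal) * Ideal.absNorm (c g : Ideal (𝓞 L)) := by
    rw [hspan, map_mul, hnI]
  have hnorm0 : Ideal.absNorm (Ideal.span {β}) ≠ 0 := by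
    rw [Ne, Ideal.absNorm_eq_zero_iff]
    exact span_ne hβne
  refine ⟨β, hβne, ?_, ?_, ?_⟩
  · intro v hv
    have hmu : mu v (Ideal.span {β}) = if v ∈ S then 1 else 0 := by
      rw [hspan, mu_mul v hI0 (hc0 g), hcv v hv, add_zero, hI, mu_prod]
    rw [val_int v hβne, hmu]
    constructor
    · intro hvS
      rw [if_pos hvS]
      norm_num
    · intro hvS
      rw [if_neg hvS]
      simp
  · rw [hnorm]
    have h2 : Ideal.absNorm (c g : Ideal (𝓞 L)) ≤ B := by
      refine Finset.single_le_prod' (f := fun g : ClassGroup (𝓞 L) =>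
        Ideal.absNorm (c g : Ideal (𝓞 L))) (fun g _ => ?_) (Finset.mem_univ g)
      exact Nat.one_le_iff_ne_zero.mpr (hcn g)
    have h3 : (∏ v ∈ S, Ideal.absNorm v.asIdeal) * Ideal.absNorm (c g : Ideal (𝓞 L)) ≤
        B * ∏ v ∈ S, Ideal.absNorm v.asIdeal := by
      rw [mul_comm]
      exact Nat.mul_le_mul_right _ h2
    exact_mod_cast h3
  · refine ⟨hβne, ?_, ?_⟩
    · intro σ
      have hN : (0 : ℝ) ≤ ((Ideal.absNorm (Ideal.span {β0}) : ℕ) : ℝ) := Nat.cast_nonneg _
      calc ‖σ (β : L)‖ ^ Module.finrank ℚ L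
          ≤ (C1 * ((Ideal.absNorm (Ideal.span {β0}) : ℕ) : ℝ) ^
            ((1 : ℝ) / Module.finrank ℚ L)) ^ Module.finrank ℚ L :=
            pow_le_pow_left₀ (norm_nonneg _) (hu σ) _
        _ = C1 ^ Module.finrank ℚ L * ((Ideal.absNorm (Ideal.span {β0}) : ℕ) : ℝ) := by
            rw [mul_pow, one_div, Real.rpow_inv_natCast_pow hN hn0]
        _ ≤ (C1 ^ Module.finrank ℚ L + (K2 : ℝ) + (Module.finrank ℚ L : ℝ)) *
            ((Ideal.absNorm (Ideal.span {β}) : ℕ) : ℝ) := by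
            rw [hspan']
            refine mul_le_mul_of_nonneg_right ?_ hN
            have h1 : (0 : ℝ) ≤ (K2 : ℝ) := Nat.cast_nonneg _
            have h2 : (0 : ℝ) ≤ (Module.finrank ℚ L : ℝ) := Nat.cast_nonneg _
            linarith
    · have h1 : Om β = S.card +
          (UniqueFactorizationMonoid.normalizedFactors (c g : Ideal (𝓞 L))).card := by
        unfold Om
        rw [hspan, UniqueFactorizationMonoid.normalizedFactors_mul hI0 (hc0 g), Multiset.card_add,
          hI, card_nf_prod]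
      have h2 : (UniqueFactorizationMonoid.normalizedFactors (c g : Ideal (𝓞 L))).card ≤ K2 :=
        Finset.single_le_sum (f := fun g : ClassGroup (𝓞 L) =>
          (UniqueFactorizationMonoid.normalizedFactors (c g : Ideal (𝓞 L))).card)
          (fun _ _ => Nat.zero_le _) (Finset.mem_univ g)
      have h3 : S.card ≤ Module.finrank ℚ L *
          (Ideal.absNorm (Ideal.span {β})).primeFactors.card := by
        refine card_le_primeFactors S hnorm0 fun v hv => ?_
        rw [hnorm]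
        exact Dvd.dvd.mul_right (Finset.dvd_prod_of_mem _ hv) _
      rw [h1]
      have h4 : ((S.card + (UniqueFactorizationMonoid.normalizedFactors
          (c g : Ideal (𝓞 L))).card : ℕ) : ℝ) ≤
          ((K2 + Module.finrank ℚ L * (Ideal.absNorm (Ideal.span {β})).primeFactors.card : ℕ) : ℝ) := by
        exact_mod_cast (by omega)
      have h5 : (0 : ℝ) ≤ C1 ^ Module.finrank ℚ L := by positivity
      have h6 : (0 : ℝ) ≤ (Module.finrank ℚ L : ℝ) := Nat.cast_nonneg _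
      have h7 : (0 : ℝ) ≤ (K2 : ℝ) := Nat.cast_nonneg _
      have h8 : (0 : ℝ) ≤ ((Ideal.absNorm (Ideal.span {β})).primeFactors.card : ℝ) := Nat.cast_nonneg _
      push_cast at h4 ⊢
      nlinarith [mul_nonneg h5 h8, mul_nonneg h7 h8]

end Pool.Agent.Q79.ESN
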