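import Pool.Agent.Q161.ESN.Stm2
import Pool.Agent.Q299.ESM.Res

/-!
# Project ESN, job RES: the classes modulo `l` (helper79)

Adapted from `Pool/Agent/Q299/ESM/Res.lean` (helper299).
-/

set_option autoImplicit false

namespace Pool.Agent.Q79.ESN

open NumberField IsDedekindDomain Finset Pool.Agent.Q161.ESN
open Pool.Agent.Q51.EL (Abv N1)
open Pool.Agent.Q299.ESM (dvd_coord dvd_of_map Eq0 cnt el)

section

variable {F K : Type} [Field F] [NumberField F] [Field K] [NumberField K] [Algebra F K]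

theorem smul_coe (g : K ≃ₐ[F] K) (x : 𝓞 K) : ((g • x : 𝓞 K) : K) = g (x : K) := rfl

theorem iO_eq (x : 𝓞 F) : iO F K x = algebraMap (𝓞 F) (𝓞 K) x := rfl

theorem ov_liesOver {w : HeightOneSpectrum (𝓞 K)} {v : HeightOneSpectrum (𝓞 F)} (h : Ov w v) :
    w.asIdeal.LiesOver v.asIdeal := by
  constructor
  ext x
  rw [Ideal.mem_comap]
  exact h x

theorem exists_ov {l : ℕ} (hl : l ≠ 0) {w : HeightOneSpectrum (𝓞 K)} (hw : Abv w l) :
    ∃ v : HeightOneSpectrum (𝓞 F), Ov w v ∧ Abv v l := by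
  have hmem : (l : 𝓞 F) ∈ w.asIdeal.comap (iO F K) := by
    rw [Ideal.mem_comap, map_natCast]
    exact hw
  refine ⟨⟨w.asIdeal.comap (iO F K), Ideal.comap_isPrime _ _, ?_⟩, fun x => ?_, ?_⟩
  · intro h
    rw [h, Ideal.mem_bot] at hmem
    exact hl (by exact_mod_cast hmem)
  · exact Iff.rfl
  · exact hmem

variable [IsGalois ℚ K]

/-- `Gal(K/F)` acts transitively on the primes above a prime of `F`. -/
theorem trans_ov {w w' : HeightOneSpectrum (𝓞 K)} {v : HeightOneSpectrum (𝓞 F)} (h : Ov w v)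
    (h' : Ov w' v) : ∃ g : K ≃ₐ[F] K, ∀ x : 𝓞 K, x ∈ w.asIdeal ↔ g • x ∈ w'.asIdeal := by
  have : IsGalois F K := IsGalois.tower_top_of_isGalois ℚ F K
  have h1 := ov_liesOver h
  have h2 := ov_liesOver h'
  obtain ⟨g, hg⟩ := Ideal.exists_smul_eq_of_isGaloisGroup v.asIdeal w.asIdeal w'.asIdeal (K ≃ₐ[F] K)
  refine ⟨g, fun x => ?_⟩
  rw [← hg, Ideal.mem_pointwise_smul_iff_inv_smul_mem, inv_smul_smul]

/-- an element whose conjugates over `F` lie in one prime above each prime of `F` above `l` is divisible by `l` -/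
theorem dvd_of_all_ov {l : ℕ} (hl : l.Prime) (hsq : Squarefree (Ideal.span {(l : 𝓞 K)}))
    {P : Type} {v : P → HeightOneSpectrum (𝓞 F)} {w : P → HeightOneSpectrum (𝓞 K)}
    (hv : ∀ u : HeightOneSpectrum (𝓞 F), Abv u l → ∃ p, v p = u) (hov : ∀ p, Ov (w p) (v p))
    {x : 𝓞 K} (hx : ∀ (p : P) (g : K ≃ₐ[F] K), g • x ∈ (w p).asIdeal) : (l : 𝓞 K) ∣ x := by
  have hl0 : (l : 𝓞 K) ≠ 0 := by exact_mod_cast hl.ne_zero
  have h1 : x ∈ (Ideal.span {(l : 𝓞 K)}).radical := by
    rw [Ideal.radical_eq_sInf, Ideal.mem_sInf]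
    rintro Q ⟨hQ1, hQ2⟩
    have hlQ : (l : 𝓞 K) ∈ Q := hQ1 (Ideal.mem_span_singleton_self _)
    have hQ0 : Q ≠ ⊥ := by
      rintro rfl
      exact hl0 (by simpa using hlQ)
    obtain ⟨u, hu, hul⟩ := exists_ov (F := F) (w := ⟨Q, hQ2, hQ0⟩) hl.ne_zero hlQ
    obtain ⟨p, rfl⟩ := hv u hul
    obtain ⟨g, hg⟩ := trans_ov hu (hov p)
    exact (hg x).2 (hx p g)
  obtain ⟨n, hn⟩ := h1
  have h2 : Ideal.span {(l : 𝓞 K)} ∣ (Ideal.span {x}) ^ n := by
    rw [Ideal.dvd_iff_le, Ideal.span_singleton_pow, Ideal.span_singleton_le_iff_mem]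
    exact hn
  have h3 := hsq.isRadical n _ h2
  rw [Ideal.dvd_iff_le, Ideal.span_singleton_le_iff_mem, Ideal.mem_span_singleton] at h3
  exact h3

end

section

variable {F K : Type} [Field F] [NumberField F] [Field K] [NumberField K] [Algebra F K] {V : Type}
  [AddCommGroup V] [DistribMulAction (K ≃ₐ[F] K) V]
  {ι : Type} {Lf : ι → Type} [∀ i, Field (Lf i)] [∀ i, NumberField (Lf i)] {em : (i : ι) → Lf i →+* K} {rp : ι → V}

theorem ev_smul {ev : ((i : ι) → 𝓞 (Lf i)) →+* (V → 𝓞 K)} (hev : IsEv F em rp ev) (x : (i : ι) → 𝓞 (Lf i)) (i : ι)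
    (g : K ≃ₐ[F] K) : ev x (g • rp i) = g • RingOfIntegers.mapRingHom (em i) (x i) := by
  have h1 := hev.eqv x g (rp i)
  apply FaithfulSMul.algebraMap_injective (𝓞 K) K
  show ((ev x (g • rp i) : 𝓞 K) : K) = g (em i (x i : Lf i))
  rw [h1, hev.val]

/-- The sum of the degrees. -/
theorem sum_deg [Finite V] [Fintype ι] (hrp : Rp F Lf em rp)
    (hdeg : ∀ i, Module.finrank ℚ (Lf i) =
      Module.finrank ℚ F * {t : V | ∃ g : K ≃ₐ[F] K, g • rp i = t}.ncard) {n : ι → ℕ}
    (bs : (i : ι) → Module.Basis (Fin (n i)) ℤ (𝓞 (Lf i))) :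
    ∑ i, n i = Module.finrank ℚ F * Nat.card V := by
  have h1 : ∀ i, n i = Module.finrank ℚ F * Nat.card {t : V // ∃ g : K ≃ₐ[F] K, g • rp i = t} := by
    intro i
    have h2 : n i = Module.finrank ℤ (𝓞 (Lf i)) := by
      rw [Module.finrank_eq_card_basis (bs i), Fintype.card_fin]
    rw [h2, RingOfIntegers.rank, hdeg i]
    congr 1
  rw [sum_congr rfl (fun i _ => h1 i), ← mul_sum, ← Nat.card_sigma]
  congr 1
  refine Nat.card_congr (Equiv.ofBijective (fun p => p.2.1) ⟨?_, ?_⟩)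
  · rintro ⟨i, t, ht⟩ ⟨i', t', ht'⟩ h
    simp only at h
    subst h
    have h3 := (hrp.orb t).unique ht ht'
    subst h3
    rfl
  · intro t
    obtain ⟨i, hi, -⟩ := hrp.orb t
    exact ⟨⟨i, t, hi⟩, rfl⟩

end

/-- JOB RES -/
theorem res : S_EVX → S_RES := by
  intro hEVX F K _ _ _ _ _ _ V _ _ _ ι _ Lf _ _ em rp hrp ev hev n bs l hl hsq P _ v w q φ hfr
  classical
  have hdeg := (hEVX F K V ι Lf em rp hrp).2
  have hwp : ∀ p, (w p).asIdeal.IsPrime := fun p => (w p).isPrime
  have hfin : ∀ p, Finite (𝓞 K ⧸ (w p).asIdeal) := fun p =>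
    Ideal.finiteQuotientOfFreeOfNeBot (w p).asIdeal (w p).ne_bot
  have hl0 : l ≠ 0 := hl.ne_zero
  have hNZ : NeZero l := ⟨hl0⟩
  have hwl : ∀ p, (l : 𝓞 K) ∈ (w p).asIdeal := by
    intro p
    have h1 : Abv (v p) l := (hfr.abv (v p)).2 ⟨p, rfl⟩
    have h2 := (hfr.ov p (l : 𝓞 F)).1 h1
    rwa [map_natCast] at h2
  let lift : Vm n l → Vc n := fun y i j => ((y i j).val : ℤ)
  have hlift : ∀ y : Vm n l, rd n l (lift y) = y := by
    intro y
    ext i j
    simp [rd, lift]
  let R0 : Vc n → ((p : P) → V → 𝓞 K ⧸ (w p).asIdeal) := fun x p s =>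
    Ideal.Quotient.mk (w p).asIdeal (ev (el bs x) s)
  -- the key
  have hkey : ∀ (x x' : Vc n) (i : ι), (∀ j, (l : ℤ) ∣ x i j - x' i j) ↔
      ∀ (p : P) (g : K ≃ₐ[F] K), R0 x p (g • rp i) = R0 x' p (g • rp i) := by
    intro x x' i
    have h1 : el bs x i - el bs x' i = ∑ j, (x i j - x' i j) • bs i j := by
      simp only [el]
      rw [← sum_sub_distrib]
      apply sum_congr rfl
      intro j _
      rw [sub_smul]
    have h2 : ∀ (p : P) (g : K ≃ₐ[F] K), R0 x p (g • rp i) = R0 x' p (g • rp i) ↔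
        g • RingOfIntegers.mapRingHom (em i) (el bs x i - el bs x' i) ∈ (w p).asIdeal := by
      intro p g
      simp only [R0]
      rw [Ideal.Quotient.eq, ev_smul hev, ev_smul hev, ← smul_sub, map_sub]
    rw [← dvd_coord (bs i) l (fun j => x i j - x' i j), ← h1]
    constructor
    · rintro ⟨t, ht⟩ p g
      rw [h2 p g, ht, map_mul, smul_mul', map_natCast]
      have h3 : g • ((l : ℕ) : 𝓞 K) = (l : 𝓞 K) := map_natCast (MulSemiringAction.toRingHom (K ≃ₐ[F] K) (𝓞 K) g) l
      rw [h3]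
      exact (w p).asIdeal.mul_mem_right _ (hwl p)
    · intro h
      apply dvd_of_map (em i) hl0
      exact dvd_of_all_ov hl hsq (fun u hu => (hfr.abv u).1 hu) hfr.ov (fun p g => (h2 p g).1 (h p g))
  have hcong : ∀ x x' : Vc n, rd n l x = rd n l x' → R0 x = R0 x' := by
    intro x x' h
    ext p s
    obtain ⟨i, ⟨g, hg⟩, -⟩ := hrp.orb s
    rw [← hg]
    apply (hkey x x' i).1
    intro j
    have h1 := congrFun (congrFun h i) j
    simp only [rd] at h1
    rw [← sub_eq_zero, ← Int.cast_sub, ZMod.intCast_zmod_eq_zero_iff_dvd] at h1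
    exact h1
  have hdvd : ∀ (y y' : Vm n l) (i : ι), y i = y' i ↔ ∀ j, (l : ℤ) ∣ lift y i j - lift y' i j := by
    intro y y' i
    have h1 : ∀ j, (l : ℤ) ∣ lift y i j - lift y' i j ↔ y i j = y' i j := by
      intro j
      rw [← ZMod.intCast_zmod_eq_zero_iff_dvd, Int.cast_sub, sub_eq_zero]
      have h2 := congrFun (congrFun (hlift y) i) j
      have h3 := congrFun (congrFun (hlift y') i) j
      simp only [rd] at h2 h3
      rw [h2, h3]
    constructor
    · intro h j
      rw [h1, h]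
    · intro h
      ext j
      exact (h1 j).1 (h j)
  have hcomp : ∀ (y y' : Vm n l) (i : ι), y i = y' i ↔
        ∀ (p : P) (g : K ≃ₐ[F] K), R0 (lift y) p (g • rp i) = R0 (lift y') p (g • rp i) := by
    intro y y' i
    rw [hdvd, hkey]
  have hinj : Function.Injective (fun y : Vm n l => R0 (lift y)) := by
    intro y y' h
    funext i
    rw [hcomp]
    intro p g
    exact congrFun (congrFun h p) _
  have hFc : ∀ (x : Vc n) (p : P) (s : V), R0 x p (φ p • s) = R0 x p s ^ q p := by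
    intro x p s
    simp only [R0]
    rw [← map_pow, Ideal.Quotient.eq]
    exact hfr.fb p _ _ (hev.eqv _ (φ p) s)
  refine ⟨fun y => R0 (lift y), hinj, ?_, ?_, hcomp⟩
  · intro c
    constructor
    · rintro ⟨y, rfl⟩ p s
      exact hFc _ p s
    · intro hc
      -- counting
      have hFinj : ∀ p, Function.Injective (fun s : V => φ p • s) := fun p => MulAction.injective (φ p)
      have hVfin := Fintype.ofFinite V
      have hq2 : ∀ p, 2 ≤ q p := by
        intro p
        have hl2 := hl.two_le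
        rcases hfr.dich p with h | h
        · omega
        · nlinarith
      have hcnt := fun p => cnt (k := 𝓞 K ⧸ (w p).asIdeal) (q p) (F := fun s : V => φ p • s) (hFinj p) (hq2 p) _ univ rfl
        (fun s => by simp) (fun _ => 0)
      set E : (p : P) → Set (V → 𝓞 K ⧸ (w p).asIdeal) := fun p =>
        Eq0 (q p) (fun s : V => φ p • s) univ (fun _ => (0 : 𝓞 K ⧸ (w p).asIdeal)) with hE
      have hcard : Nat.card (Vm n l) = ∏ p, (q p) ^ (univ : Finset V).card := by
        rw [Nat.card_eq_fintype_card, Fintype.card_pi]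
        have h1 : ∀ i, Fintype.card (Fin (n i) → ZMod l) = l ^ n i := by
          intro i
          rw [Fintype.card_fun, ZMod.card, Fintype.card_fin]
        rw [prod_congr rfl (fun i _ => h1 i), prod_pow_eq_pow_sum, sum_deg hrp hdeg bs,
          Nat.card_eq_fintype_card, prod_pow, hfr.prod, ← pow_mul, card_univ]
      have hmem : ∀ y : Vm n l, R0 (lift y) ∈ Set.univ.pi E := fun y p _ =>
        ⟨fun s => hFc _ p s, fun s hs => absurd (mem_univ s) hs⟩
      have hEfin : (Set.univ.pi E).Finite := Set.toFinite _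
      have hEcard : (Set.univ.pi E).ncard ≤ ∏ p, (q p) ^ (univ : Finset V).card := by
        have h1 : (Set.univ.pi E).ncard = ∏ p, (E p).ncard := by
          rw [← Nat.card_coe_set_eq, Nat.card_congr (Equiv.Set.univPi E), Nat.card_pi]
          refine prod_congr rfl fun p _ => ?_
          rw [Nat.card_coe_set_eq]
        rw [h1]
        exact prod_le_prod' fun p _ => hcnt p
      have hbij : Set.range (fun y : Vm n l => R0 (lift y)) = Set.univ.pi E := by
        apply Set.eq_of_subset_of_ncard_le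
        · rintro _ ⟨y, rfl⟩
          exact hmem y
        · refine le_trans hEcard ?_
          rw [← hcard, ← Set.image_univ, Set.ncard_image_of_injective _ hinj, Set.ncard_univ]
        · exact hEfin
      have h1 : c ∈ Set.univ.pi E := fun p _ => ⟨hc p, fun s hs => absurd (mem_univ s) hs⟩
      rw [← hbij] at h1
      exact h1
  · intro x
    have h1 : R0 (lift (rd n l x)) = R0 x := hcong _ _ (hlift _)
    exact h1

end Pool.Agent.Q79.ESN
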